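import Pool.Agent.H815.QC.Stm

set_option autoImplicit false

/-! `QC-R1`: elements of full support. -/

namespace Pool.Agent.H314.QC

open Pool.Agent.Y110.FJ Pool.Agent.T2H65.GP Pool.Agent.H815.QC

theorem vret_std {V : Type} (Λ : SimpleGraph V) {T : V → Prop} {v : V} (hv : ¬ T v) {x : P2 Λ}
    (hx : x ∈ std Λ (B2 V) T) : vret Λ (B2 V) v x = 1 := by
  have h : std Λ (B2 V) T ≤ (vret Λ (B2 V) v).ker := by
    apply std_le
    rintro u hu _ ⟨a, rfl⟩
    exact vret_of' Λ (B2 V) v (fun h => hv (h ▸ hu)) a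
  exact h hx

theorem vret_prod {V : Type} [DecidableEq V] (Λ : SimpleGraph V) (v : V) (L : List V) :
    vret Λ (B2 V) v ((L.map (fun u => gp Λ u 1)).prod) = Multiplicative.ofAdd (L.count v : ℤ) := by
  induction L with
  | nil =>
    rw [List.map_nil, List.prod_nil, map_one, List.count_nil]
    rfl
  | cons u L ih =>
    rw [List.map_cons, List.prod_cons, map_mul, ih, List.count_cons]
    by_cases h : u = v
    · subst h
      rw [gp, vret_of]
      simp only [beq_self_eq_true, if_true]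
      rw [← ofAdd_add]
      congr 1
      push_cast
      ring
    · rw [gp, vret_of' Λ (B2 V) v h]
      have h' : (u == v) = false := by simpa using h
      rw [h', one_mul]
      simp

theorem R1_proof : Pool.Agent.H815.QC.S_R1 := by
  classical
  intro V _ Λ N _ β hβ b S
  have := Fintype.ofFinite V
  obtain ⟨L, hL⟩ : ∃ L : List V, ∀ v, v ∈ L ↔ S v :=
    ⟨(Finset.univ.filter S).toList, fun v => by simp⟩
  obtain ⟨p, hp⟩ : ∃ p : P2 Λ, p = (L.map (fun u => gp Λ u 1)).prod := ⟨_, rfl⟩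
  have hpS : p ∈ std Λ (B2 V) S := by
    rw [hp]
    apply Subgroup.list_prod_mem
    intro x hx
    rw [List.mem_map] at hx
    obtain ⟨u, hu, rfl⟩ := hx
    exact vg_le_std Λ (B2 V) ((hL u).1 hu) ⟨_, rfl⟩
  obtain ⟨m, hm, -, n, hn⟩ :=
    Subgroup.exists_pow_mem_of_index_ne_zero hβ.2.index_ne_zero (b * p * b⁻¹)
  refine ⟨n, ?_⟩
  have e : b⁻¹ * β n * b = p ^ m := by
    rw [hn, conj_pow]
    group
  rw [e]
  refine ⟨Subgroup.pow_mem _ hpS m, ?_⟩
  rintro T' - ⟨v, hv, hv'⟩ c hc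
  have h1 := vret_std Λ hv' hc
  rw [map_mul, map_mul, map_inv, mul_comm _ (vret Λ (B2 V) v c), mul_inv_cancel_left, map_pow, hp,
    vret_prod, ← ofAdd_nsmul] at h1
  have h2 : m • (L.count v : ℤ) = 0 := h1
  have h3 : 0 < L.count v := List.count_pos_iff.2 ((hL v).2 hv)
  rw [nsmul_eq_mul] at h2
  have h4 : (0 : ℤ) < (m : ℤ) * (L.count v : ℤ) := by positivity
  omega

end Pool.Agent.H314.QC
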